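import Mathlib

set_option autoImplicit false

namespace Pool.Agent.H.MP_ba9f40_al

open Matrix

def M : Matrix (Fin 4) (Fin 4) ℤ := !![100, 30, 30, 30; 30, 10, 9, 9; 30, 0, 10, 9; 30, 0, 0, 10]

lemma le_four {k : ℕ} {α : Fin k → Fin 4} (h : StrictMono α) : k ≤ 4 := by
  simpa using Fintype.card_le_of_injective α h.injective

lemma posZ : ∀ k ≤ 4, ∀ α : Fin k → Fin 4, StrictMono α → 0 < (M.submatrix α α).det := by
  intro k hk
  interval_cases k <;> decide +kernel

lemma signZ : ∀ k ≤ 4, ∀ α : Fin k → Fin 4, StrictMono α → ∀ β : Fin k → Fin 4, StrictMono β →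
    (Finset.univ.image α ∩ Finset.univ.image β).card + 1 = k →
    0 ≤ (M.submatrix α β).det * (M.submatrix β α).det := by
  intro k hk
  interval_cases k <;> decide +kernel

lemma sum1 : ∑ α ∈ Finset.univ.filter (fun α : Fin 1 → Fin 4 => StrictMono α),
    (M.submatrix α α).det = 130 := by decide +kernel

lemma sum2 : ∑ α ∈ Finset.univ.filter (fun α : Fin 2 → Fin 4 => StrictMono α),
    (M.submatrix α α).det = 600 := by decide +kernel

lemma sum3 : ∑ α ∈ Finset.univ.filter (fun α : Fin 3 → Fin 4 => StrictMono α),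
    (M.submatrix α α).det = 1300 := by decide +kernel

lemma cast_minor (K : Type) [CommRing K] {k : ℕ} (α β : Fin k → Fin 4) :
    ((M.map (Int.cast : ℤ → K)).submatrix α β).det = ((M.submatrix α β).det : K) := by
  rw [Int.cast_det]
  rfl

def N (K : Type) [Field K] {k : ℕ} (α : Fin k → Fin 4) (x : K) : Matrix (Fin k) (Fin k) K :=
  Matrix.of fun i j => (if i = j then x else 0) - (M (α i) (α j) : K)

lemma d1 (K : Type) [Field K] (α : Fin 1 → Fin 4) (x : K) : (N K α x).det = (-1) ^ 0 *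
    if α 0 = 0 then x * (10 - x) ^ 0 - 100 * (1 - x) ^ 0 else -(10 - x) ^ (0 + 1) := by
  have : ∀ α : Fin 1 → Fin 4, α ∈ [![0], ![1], ![2], ![3]] := by decide
  have := this α
  simp only [List.mem_cons, List.not_mem_nil, or_false] at this
  rcases this with rfl | rfl | rfl | rfl <;> rw [Matrix.det_unique] <;> simp [N, M]

lemma d2 (K : Type) [Field K] (α : Fin 2 → Fin 4) (h : StrictMono α) (x : K) :
    (N K α x).det = (-1) ^ 1 *
    if α 0 = 0 then x * (10 - x) ^ 1 - 100 * (1 - x) ^ 1 else -(10 - x) ^ (1 + 1) := by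
  have : ∀ α : Fin 2 → Fin 4, StrictMono α →
      α ∈ [![0, 1], ![0, 2], ![0, 3], ![1, 2], ![1, 3], ![2, 3]] := by decide
  have := this α h
  simp only [List.mem_cons, List.not_mem_nil, or_false] at this
  rcases this with rfl | rfl | rfl | rfl | rfl | rfl <;> rw [Matrix.det_fin_two] <;>
    simp [N, M] <;> ring

lemma d3 (K : Type) [Field K] (α : Fin 3 → Fin 4) (h : StrictMono α) (x : K) :
    (N K α x).det = (-1) ^ 2 *
    if α 0 = 0 then x * (10 - x) ^ 2 - 100 * (1 - x) ^ 2 else -(10 - x) ^ (2 + 1) := by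
  have : ∀ α : Fin 3 → Fin 4, StrictMono α →
      α ∈ [![0, 1, 2], ![0, 1, 3], ![0, 2, 3], ![1, 2, 3]] := by decide +kernel
  have := this α h
  simp only [List.mem_cons, List.not_mem_nil, or_false] at this
  rcases this with rfl | rfl | rfl | rfl <;> rw [Matrix.det_fin_three] <;>
    simp [N, M] <;> ring

lemma d4 (K : Type) [Field K] (α : Fin 4 → Fin 4) (h : StrictMono α) (x : K) :
    (N K α x).det = (-1) ^ 3 *
    if α 0 = 0 then x * (10 - x) ^ 3 - 100 * (1 - x) ^ 3 else -(10 - x) ^ (3 + 1) := by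
  have : ∀ α : Fin 4 → Fin 4, StrictMono α → α = ![0, 1, 2, 3] := by decide +kernel
  rw [this α h]
  have e : N K ![0, 1, 2, 3] x =
      !![x - 100, -30, -30, -30; -30, x - 10, -9, -9; -30, 0, x - 10, -9; -30, 0, 0, x - 10] := by
    ext i j
    fin_cases i <;> fin_cases j <;> simp [N, M]
  rw [e]
  simp [Matrix.det_succ_row_zero, Fin.sum_univ_succ, Fin.succAbove]
  ring

lemma char_eq (K : Type) [Field K] (k : ℕ) (α : Fin (k + 1) → Fin 4) (h : StrictMono α) (x : K) :
    x ∈ spectrum K ((M.map (Int.cast : ℤ → K)).submatrix α α) ↔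
      if α 0 = 0 then x * (10 - x) ^ k = 100 * (1 - x) ^ k else (10 - x) ^ (k + 1) = 0 := by
  rw [spectrum.mem_iff, Matrix.isUnit_iff_isUnit_det, isUnit_iff_ne_zero, not_not]
  have hk : k ≤ 3 := by have := le_four h; omega
  have e : algebraMap K (Matrix (Fin (k + 1)) (Fin (k + 1)) K) x -
      (M.map (Int.cast : ℤ → K)).submatrix α α = N K α x := by
    ext i j
    simp only [Matrix.sub_apply, Matrix.submatrix_apply, Matrix.map_apply,
      Matrix.algebraMap_matrix_apply, N, Matrix.of_apply, Algebra.algebraMap_self, RingHom.id_apply]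
  have key : (N K α x).det = (-1) ^ k *
      if α 0 = 0 then x * (10 - x) ^ k - 100 * (1 - x) ^ k else -(10 - x) ^ (k + 1) := by
    interval_cases k
    exacts [d1 K α x, d2 K α h x, d3 K α h x, d4 K α h x]
  rw [e, key]
  split_ifs <;> simp [sub_eq_zero]

def RS (k : ℕ) : Set ℝ := {x | x * (10 - x) ^ k = 100 * (1 - x) ^ k}

lemma RS_pos {k : ℕ} {x : ℝ} (h : x ∈ RS k) : 0 < x := by
  by_contra hx
  push Not at hx
  have h1 : 0 < (1 - x) ^ k := pow_pos (by linarith) k
  have h2 : 0 < (10 - x) ^ k := pow_pos (by linarith) k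
  have : x * (10 - x) ^ k = 100 * (1 - x) ^ k := h
  nlinarith

lemma RS_ex (k : ℕ) (s : ℝ) (hs : 0 ≤ s) (h : 100 * (1 - s) ^ k ≤ s * (10 - s) ^ k) :
    ∃ x ∈ RS k, x ≤ s := by
  have hc : ContinuousOn (fun x : ℝ => x * (10 - x) ^ k - 100 * (1 - x) ^ k) (Set.Icc 0 s) := by
    fun_prop
  obtain ⟨x, hx, hx0⟩ := intermediate_value_Icc hs hc (a := 0) (show (0 : ℝ) ∈ _ from
    ⟨by simp, by simpa using h⟩)
  exact ⟨x, sub_eq_zero.mp hx0, hx.2⟩

lemma RS_least {k : ℕ} (h : (RS k).Nonempty) : IsLeast (RS k) (sInf (RS k)) :=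
  IsClosed.isLeast_csInf (isClosed_eq (by fun_prop) (by fun_prop)) h
    ⟨0, fun _ hx => (RS_pos hx).le⟩

lemma RS_facts : (∀ k ≤ 3, (RS k).Nonempty) ∧ sInf (RS 3) ≤ sInf (RS 2) ∧
    sInf (RS 2) ≤ sInf (RS 1) ∧ sInf (RS 1) ≤ 10 ∧ 10 ≤ sInf (RS 0) := by
  obtain ⟨x0, a0, -⟩ := RS_ex 0 100 (by norm_num) (by norm_num)
  obtain ⟨x1, a1, b1⟩ := RS_ex 1 1 (by norm_num) (by norm_num)
  obtain ⟨x2, a2, b2⟩ := RS_ex 2 (1 / 2) (by norm_num) (by norm_num)
  obtain ⟨x3, a3, b3⟩ := RS_ex 3 (1 / 10) (by norm_num) (by norm_num)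
  have l0 := RS_least ⟨x0, a0⟩
  have l1 := RS_least ⟨x1, a1⟩
  have l2 := RS_least ⟨x2, a2⟩
  have l3 := RS_least ⟨x3, a3⟩
  have c0 : sInf (RS 0) * (10 - sInf (RS 0)) ^ 0 = 100 * (1 - sInf (RS 0)) ^ 0 := l0.1
  have c1 : sInf (RS 1) * (10 - sInf (RS 1)) ^ 1 = 100 * (1 - sInf (RS 1)) ^ 1 := l1.1
  have c2 : sInf (RS 2) * (10 - sInf (RS 2)) ^ 2 = 100 * (1 - sInf (RS 2)) ^ 2 := l2.1
  have p2 := RS_pos l2.1
  refine ⟨?_, ?_, ?_, ?_, ?_⟩
  · intro k hk
    interval_cases k
    exacts [⟨x0, a0⟩, ⟨x1, a1⟩, ⟨x2, a2⟩, ⟨x3, a3⟩]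
  · refine (l3.2 a3).trans (b3.trans ?_)
    by_contra hc
    push Not at hc
    nlinarith [mul_pos p2 p2, mul_pos p2 (mul_pos p2 p2)]
  · refine (l2.2 a2).trans (b2.trans ?_)
    by_contra hc
    push Not at hc
    nlinarith [sq_nonneg (sInf (RS 1))]
  · linarith [l1.2 a1]
  · simp at c0
    linarith

noncomputable def ell {k : ℕ} (α : Fin (k + 1) → Fin 4) : ℝ :=
  if α 0 = 0 then sInf (RS k) else 10

lemma ell_least {k : ℕ} (α : Fin (k + 1) → Fin 4) (h : StrictMono α) :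
    IsLeast {x : ℝ | if α 0 = 0 then x * (10 - x) ^ k = 100 * (1 - x) ^ k
      else (10 - x) ^ (k + 1) = 0} (ell α) := by
  have hk : k ≤ 3 := by have := le_four h; omega
  unfold ell
  split_ifs
  · exact RS_least (RS_facts.1 k hk)
  · refine ⟨by simp, fun x hx => ?_⟩
    have := pow_eq_zero_iff (by omega) |>.mp hx
    linarith

lemma ell_mono {k m : ℕ} (α : Fin (k + 1) → Fin 4) (β : Fin (m + 1) → Fin 4) (ha : StrictMono α)
    (hb : StrictMono β) (h : Set.range β ⊆ Set.range α) : ell α ≤ ell β := by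
  have hk : k ≤ 3 := by have := le_four ha; omega
  have hmk : m ≤ k := by
    have := Set.ncard_le_ncard h (Set.toFinite _)
    rw [Set.ncard_range_of_injective ha.injective, Set.ncard_range_of_injective hb.injective]
      at this
    simpa using this
  obtain ⟨-, f1, f2, f3, f4⟩ := RS_facts
  obtain ⟨i, hi⟩ := h ⟨0, rfl⟩
  unfold ell
  split_ifs with h1 h2 h2
  · interval_cases k <;> interval_cases m <;> linarith
  · interval_cases k
    · exact absurd (by rw [← hi, show i = 0 from Fin.ext (by have := i.2; simp only [Fin.val_zero]; omega), h1]) h2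
    all_goals linarith
  · exact absurd (le_antisymm ((ha.monotone (Fin.zero_le i)).trans (hi.trans h2).le)
      (Fin.zero_le _)) h1
  · exact le_rfl

lemma stable (z : ℂ) (h : z * (10 - z) ^ 3 = 100 * (1 - z) ^ 3) : 0 < z.re := by
  by_contra hz
  push Not at hz
  obtain ⟨x, hx⟩ : ∃ x, x = -z.re := ⟨_, rfl⟩
  have hx0 : 0 ≤ x := by linarith
  have h1 := congrArg Complex.re h
  have h2 := congrArg Complex.im h
  have e : z.re = -x := by linarith
  simp [pow_succ, e] at h1 h2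
  generalize z.im = y at h1 h2
  have hre : y ^ 4 - (6 * x ^ 2 + 390 * x + 600) * y ^ 2 +
      (x ^ 4 + 130 * x ^ 3 + 600 * x ^ 2 + 1300 * x + 100) = 0 := by linarith
  have him : y * ((4 * x + 130) * y ^ 2 - (4 * x ^ 3 + 390 * x ^ 2 + 1200 * x + 1300)) = 0 := by
    linarith
  rcases mul_eq_zero.mp him with hy | hy
  · rw [hy] at hre
    have : 0 < x ^ 4 + 130 * x ^ 3 + 600 * x ^ 2 + 1300 * x + 100 := by positivity
    linarith
  · have : 64 * x ^ 6 + 12480 * x ^ 5 + 830400 * x ^ 4 + 20072000 * x ^ 3 +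
        83234400 * x ^ 2 + 137436000 * x + 98020000 = 0 := by
      linear_combination (-(4 * x + 130) ^ 2) * hre + ((4 * x + 130) * y ^ 2 +
        (4 * x ^ 3 + 390 * x ^ 2 + 1200 * x + 1300) -
          (4 * x + 130) * (6 * x ^ 2 + 390 * x + 600)) * hy
    have : 0 < 64 * x ^ 6 + 12480 * x ^ 5 + 830400 * x ^ 4 + 20072000 * x ^ 3 +
        83234400 * x ^ 2 + 137436000 * x + 98020000 := by positivity
    linarith

noncomputable def A : Matrix (Fin 4) (Fin 4) ℝ := M.map (Int.cast : ℤ → ℝ)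

lemma A_pos (k : ℕ) (α : Fin k → Fin 4) (h : StrictMono α) : 0 < (A.submatrix α α).det := by
  rw [A, cast_minor]
  exact_mod_cast posZ k (le_four h) α h

lemma A_sign (k : ℕ) (α β : Fin k → Fin 4) (h : StrictMono α) (h' : StrictMono β)
    (hc : (Finset.univ.image α ∩ Finset.univ.image β).card + 1 = k) :
    0 ≤ (A.submatrix α β).det * (A.submatrix β α).det := by
  rw [A, cast_minor, cast_minor]
  exact_mod_cast signZ k (le_four h) α h β h' hc

lemma A_least {k : ℕ} (α : Fin (k + 1) → Fin 4) (h : StrictMono α) :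
    IsLeast (spectrum ℝ (A.submatrix α α)) (ell α) := by
  have := ell_least α h
  rwa [show {x : ℝ | if α 0 = 0 then x * (10 - x) ^ k = 100 * (1 - x) ^ k
      else (10 - x) ^ (k + 1) = 0} = spectrum ℝ (A.submatrix α α) from
    Set.ext fun x => (char_eq ℝ k α h x).symm] at this

lemma A_nonneg (x : ℝ) (hx : x ∈ spectrum ℝ A) : 0 ≤ x := by
  have := (char_eq ℝ 3 id strictMono_id x).mp hx
  simp only [id, if_true] at this
  exact (RS_pos (k := 3) this).le

lemma A_stable (z : ℂ) (hz : z ∈ spectrum ℂ (A.map ((↑) : ℝ → ℂ))) : 0 < z.re := by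
  have e : A.map ((↑) : ℝ → ℂ) = M.map (Int.cast : ℤ → ℂ) := by
    ext i j
    simp [A]
  rw [e] at hz
  have := (char_eq ℂ 3 id strictMono_id z).mp hz
  simp only [id, if_true] at this
  exact stable z this

lemma A_sum (j : ℕ) : ∑ α ∈ Finset.univ.filter (fun α : Fin j → Fin 4 => StrictMono α),
    (A.submatrix α α).det = ((∑ α ∈ Finset.univ.filter (fun α : Fin j → Fin 4 => StrictMono α),
      (M.submatrix α α).det : ℤ) : ℝ) := by
  simp only [A, cast_minor, Int.cast_sum]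

end Pool.Agent.H.MP_ba9f40_al
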